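import Mathlib

open Metric Set Filter Topology
open scoped Nat

namespace Pool.Agent.Sx28.NBd

/-- A crude three circles estimate from Taylor coefficients. -/
theorem three {H : ℂ → ℂ} {c : ℂ} {R r1 r2 r3 M1 M3 : ℝ} (h1 : 0 < r1) (h12 : r1 ≤ r2)
    (h23 : r2 < r3) (h3 : r3 < R) (hH : DifferentiableOn ℂ H (ball c R))
    (hM1 : ∀ z ∈ sphere c r1, ‖H z‖ ≤ M1) (hM3 : ∀ z ∈ sphere c r3, ‖H z‖ ≤ M3)
    (N : ℕ) {t : ℂ} (ht : ‖t - c‖ ≤ r2) :
    ‖H t‖ ≤ M1 * (N * (r2 / r1) ^ N) + M3 * ((r2 / r3) ^ N * (1 - r2 / r3)⁻¹) := by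
  have hr2 : 0 < r2 := lt_of_lt_of_le h1 h12
  have hr3 : 0 < r3 := hr2.trans h23
  have hM1' : 0 ≤ M1 := by
    have : c + (r1 : ℂ) ∈ sphere c r1 := by
      simp [abs_of_pos h1]
    exact (norm_nonneg _).trans (hM1 _ this)
  have hM3' : 0 ≤ M3 := by
    have : c + (r3 : ℂ) ∈ sphere c r3 := by
      simp [abs_of_pos hr3]
    exact (norm_nonneg _).trans (hM3 _ this)
  have htR : t ∈ ball c R := by
    rw [mem_ball, dist_eq_norm]; linarith
  have hs := Complex.hasSum_taylorSeries_on_ball hH htR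
  have hd : ∀ r : ℝ, 0 < r → r < R → DiffContOnCl ℂ H (ball c r) := by
    intro r hr hrR
    apply DifferentiableOn.diffContOnCl
    exact hH.mono ((closure_ball_subset_closedBall).trans (closedBall_subset_ball hrR))
  -- coefficient bounds
  have hc1 : ∀ n, ‖((n ! : ℂ)⁻¹ • (t - c) ^ n • iteratedDeriv n H c)‖ ≤ M1 * (r2 / r1) ^ n := by
    intro n
    have := Complex.norm_iteratedDeriv_le_of_forall_mem_sphere_norm_le n h1
      (hd r1 h1 (by linarith)) hM1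
    rw [norm_smul, norm_smul, norm_inv, norm_pow, Complex.norm_natCast]
    have hf : (0 : ℝ) < (n ! : ℝ) := by exact_mod_cast Nat.factorial_pos n
    calc (n ! : ℝ)⁻¹ * (‖t - c‖ ^ n * ‖iteratedDeriv n H c‖)
        ≤ (n ! : ℝ)⁻¹ * (r2 ^ n * (n ! * M1 / r1 ^ n)) := by gcongr
      _ = M1 * (r2 / r1) ^ n := by
        rw [div_pow]; field_simp
  have hc3 : ∀ n, ‖((n ! : ℂ)⁻¹ • (t - c) ^ n • iteratedDeriv n H c)‖ ≤ M3 * (r2 / r3) ^ n := by
    intro n
    have := Complex.norm_iteratedDeriv_le_of_forall_mem_sphere_norm_le n hr3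
      (hd r3 hr3 h3) hM3
    rw [norm_smul, norm_smul, norm_inv, norm_pow, Complex.norm_natCast]
    have hf : (0 : ℝ) < (n ! : ℝ) := by exact_mod_cast Nat.factorial_pos n
    calc (n ! : ℝ)⁻¹ * (‖t - c‖ ^ n * ‖iteratedDeriv n H c‖)
        ≤ (n ! : ℝ)⁻¹ * (r2 ^ n * (n ! * M3 / r3 ^ n)) := by gcongr
      _ = M3 * (r2 / r3) ^ n := by
        rw [div_pow]; field_simp
  set u : ℕ → ℂ := fun n => ((n ! : ℂ)⁻¹ • (t - c) ^ n • iteratedDeriv n H c) with hu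
  have hq0 : 0 ≤ r2 / r3 := by positivity
  have hq1 : r2 / r3 < 1 := (div_lt_one hr3).2 h23
  have hsum : HasSum (fun n => u (n + N)) (H t - ∑ i ∈ Finset.range N, u i) :=
    (hasSum_nat_add_iff' N).2 hs
  have hg : HasSum (fun n : ℕ => M3 * (r2 / r3) ^ N * (r2 / r3) ^ n)
      (M3 * (r2 / r3) ^ N * (1 - r2 / r3)⁻¹) :=
    (hasSum_geometric_of_lt_one hq0 hq1).mul_left _
  have hb : ‖H t - ∑ i ∈ Finset.range N, u i‖ ≤ M3 * (r2 / r3) ^ N * (1 - r2 / r3)⁻¹ := by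
    rw [← hsum.tsum_eq]
    apply tsum_of_norm_bounded hg
    intro n
    refine (hc3 (n + N)).trans (le_of_eq ?_)
    rw [pow_add]; ring
  have ha : ‖∑ i ∈ Finset.range N, u i‖ ≤ M1 * (N * (r2 / r1) ^ N) := by
    refine (norm_sum_le _ _).trans ?_
    have : ∀ i ∈ Finset.range N, ‖u i‖ ≤ M1 * (r2 / r1) ^ N := by
      intro i hi
      refine (hc1 i).trans ?_
      have : 1 ≤ r2 / r1 := (one_le_div h1).2 h12
      have h2 : (r2 / r1) ^ i ≤ (r2 / r1) ^ N :=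
        pow_le_pow_right₀ this (Finset.mem_range.1 hi).le
      exact mul_le_mul_of_nonneg_left h2 hM1'
    refine (Finset.sum_le_sum this).trans (le_of_eq ?_)
    simp; ring
  calc ‖H t‖ = ‖∑ i ∈ Finset.range N, u i + (H t - ∑ i ∈ Finset.range N, u i)‖ := by
        congr 1; ring
    _ ≤ _ := (norm_add_le _ _).trans (add_le_add ha (hb.trans (le_of_eq (by ring))))

end Pool.Agent.Sx28.NBd
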