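import Mathlib
import Pool.Agent.Sx28.NBd.Three

open Metric Set Filter Topology
open scoped Nat

namespace Pool.Agent.Sx28.NBd

theorem geom {τ t : ℂ} (hτ : ‖τ‖ = 1) {r η : ℝ} (hη : 0 < η) (hη1 : η ≤ 1)
    (hηr : η ≤ r ^ 2 / 4) (hr : 0 < r) (ht : ‖t - τ / 2‖ < 1 / 2 + η) (h1 : 1 ≤ ‖t‖) :
    ‖t - τ‖ < r := by
  have e1 : ‖t - τ / 2‖ ^ 2 = ‖t‖ ^ 2 - (t.re * τ.re + t.im * τ.im) + 1 / 4 := by
    have hτ2 : τ.re * τ.re + τ.im * τ.im = 1 := by
      have := Complex.sq_norm τ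
      rw [hτ, Complex.normSq_apply] at this; linarith
    rw [Complex.sq_norm, Complex.sq_norm, Complex.normSq_apply, Complex.normSq_apply]
    simp
    nlinarith
  have e2 : ‖t - τ‖ ^ 2 = ‖t‖ ^ 2 - 2 * (t.re * τ.re + t.im * τ.im) + 1 := by
    have hτ2 : τ.re * τ.re + τ.im * τ.im = 1 := by
      have := Complex.sq_norm τ
      rw [hτ, Complex.normSq_apply] at this; linarith
    rw [Complex.sq_norm, Complex.sq_norm, Complex.normSq_apply, Complex.normSq_apply]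
    simp
    nlinarith
  have e3 : ‖t - τ / 2‖ ^ 2 < (1 / 2 + η) ^ 2 :=
    pow_lt_pow_left₀ ht (norm_nonneg _) two_ne_zero
  have e4 : 1 ≤ ‖t‖ ^ 2 := one_le_pow₀ h1
  have e5 : ‖t - τ‖ ^ 2 < r ^ 2 := by nlinarith
  exact lt_of_pow_lt_pow_left₀ 2 hr.le e5

theorem overconv {u : ℕ → ℂ → ℂ} {e : ℕ → ℝ} {ρ : ℝ} (hu : ∀ j, Differentiable ℂ (u j))
    (he : Summable e) (he0 : ∀ j, 0 ≤ e j) (hρ0 : 0 ≤ ρ) (hρ1 : ρ < 1)
    (hin : ∀ j t, ‖t‖ ≤ 3 / 4 → ‖u j t‖ ≤ e j * ρ ^ ((j + 1)!))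
    (hout : ∀ j t R, 1 ≤ R → ‖t‖ ≤ R → ‖u j t‖ ≤ e j * R ^ ((j + 1)!))
    {g : ℂ → ℂ} (hg : ∀ t ∈ ball (0 : ℂ) 1, g t = ∑' j, u j t)
    (hgd : DifferentiableOn ℂ g (ball 0 1))
    {τ : ℂ} (hτ : ‖τ‖ = 1) {r : ℝ} (hr : 0 < r) {h : ℂ → ℂ}
    (hh : DifferentiableOn ℂ h (ball τ r))
    (hgh : ∀ t ∈ ball τ r ∩ ball 0 1, h t = g t) :
    ∃ η : ℝ, 0 < η ∧ Tendsto (fun k => u k ((1 + η : ℝ) • τ)) atTop (𝓝 0) := by
  set η : ℝ := min 1 (r ^ 2 / 4) with hηdef
  have hη : 0 < η := by rw [hηdef]; positivity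
  have hη1 : η ≤ 1 := min_le_left _ _
  have hηr : η ≤ r ^ 2 / 4 := min_le_right _ _
  refine ⟨η / 8, by positivity, ?_⟩
  classical
  set G : ℂ → ℂ := fun t => if ‖t‖ < 1 then g t else h t with hG
  have hGg : ∀ t, ‖t‖ < 1 → G t = g t := fun t ht => by simp [hG, ht]
  have hGh : ∀ t ∈ ball τ r, G t = h t := by
    intro t ht
    by_cases h1 : ‖t‖ < 1
    · rw [hGg t h1]; exact (hgh t ⟨ht, by simpa using h1⟩).symm
    · simp [hG, h1]
  have hGd : DifferentiableOn ℂ G (ball (τ / 2) (1 / 2 + η)) := by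
    intro t ht
    apply DifferentiableAt.differentiableWithinAt
    by_cases h1 : ‖t‖ < 1
    · have hmem : ball (0 : ℂ) 1 ∈ 𝓝 t := isOpen_ball.mem_nhds (by simpa using h1)
      have : G =ᶠ[𝓝 t] g := by
        filter_upwards [hmem] with x hx
        exact hGg x (by simpa using hx)
      exact this.differentiableAt_iff.2 (hgd.differentiableAt hmem)
    · have h2 : ‖t - τ‖ < r := geom hτ hη hη1 hηr hr (by simpa [dist_eq_norm] using ht) (not_lt.1 h1)
      have hmem : ball τ r ∈ 𝓝 t := isOpen_ball.mem_nhds (by simpa [dist_eq_norm] using h2)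
      have : G =ᶠ[𝓝 t] h := by
        filter_upwards [hmem] with x hx
        exact hGh x hx
      exact this.differentiableAt_iff.2 (hh.differentiableAt hmem)
  set C : ℝ := ∑' j, e j with hC
  have hC0 : 0 ≤ C := tsum_nonneg he0
  -- bound of G on the big sphere
  obtain ⟨M, hM0, hM⟩ : ∃ M : ℝ, 0 ≤ M ∧ ∀ z ∈ sphere (τ / 2) (1 / 2 + η / 2), ‖G z‖ ≤ M := by
    have hc : ContinuousOn G (sphere (τ / 2) (1 / 2 + η / 2)) := by
      apply hGd.continuousOn.mono
      intro z hz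
      rw [mem_sphere] at hz
      rw [mem_ball, hz]; linarith
    obtain ⟨M, hM⟩ := (isCompact_sphere (τ / 2) (1 / 2 + η / 2)).exists_bound_of_continuousOn hc
    exact ⟨max M 0, le_max_right _ _, fun z hz => (hM z hz).trans (le_max_left _ _)⟩
  set S : ℕ → ℂ → ℂ := fun k t => ∑ j ∈ Finset.range (k + 1), u j t with hS
  set H : ℕ → ℂ → ℂ := fun k t => G t - S k t with hH
  have hSd : ∀ k, Differentiable ℂ (S k) := by
    intro k
    simp only [hS]
    exact Differentiable.fun_sum (fun j _ => hu j)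
  have hHd : ∀ k, DifferentiableOn ℂ (H k) (ball (τ / 2) (1 / 2 + η)) := fun k =>
    hGd.sub (hSd k).differentiableOn
  have hτ2 : ‖τ / 2‖ = 1 / 2 := by rw [norm_div, hτ]; simp
  -- bound on the small sphere
  have hsm : ∀ k, ∀ z ∈ sphere (τ / 2) (1 / 4 : ℝ), ‖H k z‖ ≤ C * ρ ^ ((k + 2)!) := by
    intro k z hz
    have hz' : ‖z‖ ≤ 3 / 4 := by
      rw [mem_sphere, dist_eq_norm] at hz
      calc ‖z‖ = ‖(z - τ / 2) + τ / 2‖ := by congr 1; ring
        _ ≤ ‖z - τ / 2‖ + ‖τ / 2‖ := norm_add_le _ _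
        _ = 3 / 4 := by rw [hz, hτ2]; norm_num
    have hz1 : ‖z‖ < 1 := by linarith
    have hsu : Summable (fun j => u j z) := by
      apply Summable.of_norm_bounded he
      intro j
      refine (hin j z hz').trans ?_
      exact mul_le_of_le_one_right (he0 j) (pow_le_one₀ hρ0 hρ1.le)
    have e1 : H k z = ∑' j, u (j + (k + 1)) z := by
      simp only [hH, hS]
      rw [hGg z hz1, hg z (by simpa using hz1), ← hsu.sum_add_tsum_nat_add (k + 1)]
      ring
    rw [e1]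
    have hse : Summable (fun j => e (j + (k + 1))) := (summable_nat_add_iff (k + 1)).2 he
    have e2 : HasSum (fun j => e (j + (k + 1)) * ρ ^ ((k + 2)!))
        ((∑' j, e (j + (k + 1))) * ρ ^ ((k + 2)!)) := hse.hasSum.mul_right _
    have e3 : ‖∑' j, u (j + (k + 1)) z‖ ≤ (∑' j, e (j + (k + 1))) * ρ ^ ((k + 2)!) := by
      apply tsum_of_norm_bounded e2
      intro j
      refine (hin _ z hz').trans ?_
      apply mul_le_mul_of_nonneg_left _ (he0 _)
      apply pow_le_pow_of_le_one hρ0 hρ1.le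
      apply Nat.factorial_le; omega
    refine e3.trans ?_
    apply mul_le_mul_of_nonneg_right _ (by positivity)
    rw [hC, ← he.sum_add_tsum_nat_add (k + 1)]
    have : 0 ≤ ∑ i ∈ Finset.range (k + 1), e i := Finset.sum_nonneg (fun i _ => he0 i)
    linarith
  have hbig : ∀ k, ∀ z ∈ sphere (τ / 2) (1 / 2 + η / 2),
      ‖H k z‖ ≤ (M + C) * (1 + η) ^ ((k + 1)!) := by
    intro k z hz
    have hz' : ‖z‖ ≤ 1 + η := by
      have hz2 := hz
      rw [mem_sphere, dist_eq_norm] at hz2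
      calc ‖z‖ = ‖(z - τ / 2) + τ / 2‖ := by congr 1; ring
        _ ≤ ‖z - τ / 2‖ + ‖τ / 2‖ := norm_add_le _ _
        _ = 1 + η / 2 := by rw [hz2, hτ2]; ring
        _ ≤ 1 + η := by linarith
    have h1 : 1 ≤ 1 + η := by linarith
    have e1 : ‖S k z‖ ≤ C * (1 + η) ^ ((k + 1)!) := by
      simp only [hS]
      refine (norm_sum_le _ _).trans ?_
      calc ∑ j ∈ Finset.range (k + 1), ‖u j z‖
          ≤ ∑ j ∈ Finset.range (k + 1), e j * (1 + η) ^ ((k + 1)!) := by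
            apply Finset.sum_le_sum
            intro j hj
            refine (hout j z _ h1 hz').trans ?_
            apply mul_le_mul_of_nonneg_left _ (he0 _)
            apply pow_le_pow_right₀ h1
            apply Nat.factorial_le
            have := Finset.mem_range.1 hj; omega
        _ = (∑ j ∈ Finset.range (k + 1), e j) * (1 + η) ^ ((k + 1)!) := by
            rw [Finset.sum_mul]
        _ ≤ C * (1 + η) ^ ((k + 1)!) := by
            apply mul_le_mul_of_nonneg_right _ (by positivity)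
            exact he.sum_le_tsum _ (fun i _ => he0 i)
    have e2 : M ≤ M * (1 + η) ^ ((k + 1)!) := le_mul_of_one_le_right hM0 (one_le_pow₀ h1)
    calc ‖H k z‖ ≤ ‖G z‖ + ‖S k z‖ := norm_sub_le _ _
      _ ≤ M * (1 + η) ^ ((k + 1)!) + C * (1 + η) ^ ((k + 1)!) :=
          add_le_add ((hM z hz).trans e2) e1
      _ = _ := by ring
  -- constants
  set q : ℝ := (1 / 2 + η / 4) / (1 / 2 + η / 2) with hq
  have hq0 : 0 < q := by positivity
  have hq1 : q < 1 := by rw [hq, div_lt_one (by positivity)]; linarith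
  obtain ⟨A, hA⟩ : ∃ A : ℕ, (1 + η) * q ^ A ≤ 1 / 2 := by
    have : Tendsto (fun A : ℕ => (1 + η) * q ^ A) atTop (𝓝 ((1 + η) * 0)) :=
      (tendsto_pow_atTop_nhds_zero_of_lt_one hq0.le hq1).const_mul _
    rw [mul_zero] at this
    exact ((this.eventually (gt_mem_nhds (show (0 : ℝ) < 1 / 2 by norm_num))).exists).imp
      (fun _ h => h.le)
  set x : ℝ := ((1 / 2 + η / 4) / (1 / 4)) ^ A with hx
  have hx0 : 0 < x := by positivity
  set K : ℝ := (1 - q)⁻¹ with hK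
  have hK0 : 0 < K := by rw [hK]; exact inv_pos.2 (by linarith)
  set l0 : ℂ := (1 + η / 8 : ℝ) • τ with hl0
  have hl : ‖l0 - τ / 2‖ ≤ 1 / 2 + η / 4 := by
    have : l0 - τ / 2 = ((1 / 2 + η / 8 : ℝ) : ℂ) * τ := by
      rw [hl0, Complex.real_smul]; push_cast; ring
    rw [this, norm_mul, hτ, mul_one, Complex.norm_real, Real.norm_eq_abs,
      abs_of_pos (by positivity)]
    linarith
  have key : ∀ k, ‖H k l0‖ ≤ C * ρ ^ ((k + 2)!) * ((A * (k + 1)! : ℕ) *
      ((1 / 2 + η / 4) / (1 / 4)) ^ (A * (k + 1)!)) +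
      (M + C) * (1 + η) ^ ((k + 1)!) * (q ^ (A * (k + 1)!) * K) := by
    intro k
    exact three (by norm_num) (by linarith) (by linarith) (by linarith) (hHd k)
      (hsm k) (hbig k) (A * (k + 1)!) hl
  -- eventually a clean bound
  have hev : ∀ᶠ k : ℕ in atTop, ρ ^ (k + 2) * x ≤ 1 / 2 := by
    have h1 : Tendsto (fun k : ℕ => ρ ^ (k + 2) * x) atTop (𝓝 (0 * x)) :=
      ((tendsto_add_atTop_iff_nat 2).2 (tendsto_pow_atTop_nhds_zero_of_lt_one hρ0 hρ1)).mul_const _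
    rw [zero_mul] at h1
    exact (h1.eventually (gt_mem_nhds (show (0 : ℝ) < 1 / 2 by norm_num))).mono
      (fun _ h => h.le)
  have hclean : ∀ᶠ k : ℕ in atTop, ‖H k l0‖ ≤
      C * A * (((k + 1)! : ℕ) * (1 / 2 : ℝ) ^ ((k + 1)!)) + (M + C) * K * (1 / 2 : ℝ) ^ ((k + 1)!) := by
    filter_upwards [hev] with k hk
    refine (key k).trans ?_
    have f1 : (k + 2)! = (k + 2) * (k + 1)! := Nat.factorial_succ (k + 1)
    set D := (k + 1)! with hD
    have g1 : C * ρ ^ ((k + 2)!) * ((A * D : ℕ) * ((1 / 2 + η / 4) / (1 / 4)) ^ (A * D))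
        = C * A * (D * (ρ ^ (k + 2) * x) ^ D) := by
      rw [f1, hx, mul_pow, ← pow_mul, ← pow_mul]
      push_cast; ring
    have g2 : (M + C) * (1 + η) ^ D * (q ^ (A * D) * K) = (M + C) * K * ((1 + η) * q ^ A) ^ D := by
      rw [mul_pow, ← pow_mul]; ring
    rw [g1, g2]
    have hρx : 0 ≤ ρ ^ (k + 2) * x := by positivity
    gcongr
  have hDt : Tendsto (fun k : ℕ => (k + 1)!) atTop atTop := by
    refine tendsto_atTop_mono (fun k => ?_) tendsto_id
    exact (Nat.le_succ k).trans (Nat.self_le_factorial _)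
  have hlim : Tendsto (fun k : ℕ => C * A * (((k + 1)! : ℕ) * (1 / 2 : ℝ) ^ ((k + 1)!)) +
      (M + C) * K * (1 / 2 : ℝ) ^ ((k + 1)!)) atTop (𝓝 (C * A * 0 + (M + C) * K * 0)) := by
    have a1 : Tendsto (fun n : ℕ => (n : ℝ) * (1 / 2 : ℝ) ^ n) atTop (𝓝 0) :=
      tendsto_self_mul_const_pow_of_lt_one (by norm_num) (by norm_num)
    have a2 : Tendsto (fun n : ℕ => (1 / 2 : ℝ) ^ n) atTop (𝓝 0) :=
      tendsto_pow_atTop_nhds_zero_of_lt_one (by norm_num) (by norm_num)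
    exact ((a1.comp hDt).const_mul _).add ((a2.comp hDt).const_mul _)
  rw [mul_zero, mul_zero, add_zero] at hlim
  have hH0 : Tendsto (fun k => H k l0) atTop (𝓝 0) := squeeze_zero_norm' hclean hlim
  have hH1 : Tendsto (fun k => H (k + 1) l0) atTop (𝓝 0) := (tendsto_add_atTop_iff_nat 1).2 hH0
  have hd : Tendsto (fun k => H k l0 - H (k + 1) l0) atTop (𝓝 (0 - 0)) := hH0.sub hH1
  rw [sub_zero] at hd
  rw [← tendsto_add_atTop_iff_nat 1]
  refine hd.congr (fun k => ?_)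
  simp only [hH, hS]
  rw [Finset.sum_range_succ (fun j => u j l0) (k + 1)]
  ring

end Pool.Agent.Sx28.NBd
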